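import Mathlib
import Pool.Agent.H414G.Add

set_option autoImplicit false

open Set Filter
open scoped Cardinal

namespace Pool.Agent.Results.MP_6e1b89_gt.LowerBound

open Pool.Agent.H414G

/-- The additivity number of `S₁(Γ, Γ)` is at least `min 𝔟 𝔤_f`: the union of a family of fewer than
`min 𝔟 𝔤_f` sets with property `S₁(Γ, Γ)` has property `S₁(Γ, Γ)`. -/
theorem result {T : Type} [TopologicalSpace T] (𝓕 : Set (Set T))
    (hS : ∀ X ∈ 𝓕, SOneGammaGamma X) (h : #𝓕 < min bNum gfNum) : SOneGammaGamma (⋃₀ 𝓕) := by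
  rw [sUnion_eq_iUnion]
  exact union_gf (fun X : 𝓕 => (X : Set T)) (fun X => hS X X.2) h

end Pool.Agent.Results.MP_6e1b89_gt.LowerBound
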